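import Mathlib

/-!
# MP_d06a13_ag: the v-number of a squarefree monomial ideal can exceed the depth

Let `Δ` be the disjoint union of the boundaries of two simplices with `n + 1` vertices each, and
`I` its Stanley-Reisner ideal, generated by the products `X (0, i) X (1, j)`, by `∏ i, X (0, i)` and
by `∏ i, X (1, i)`. The depth of `R / I` is at most one (`Δ` is disconnected), but every face with
fewer than `n` elements is in two different facets, and so the v-number is `n`.
-/

namespace Pool.Agent.Results.MP_d06a13_ag.DepthCounterexample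

open MvPolynomial

/-- A squarefree monomial ideal of the polynomial ring: a proper ideal generated by a set of
squarefree monomials `∏ i ∈ s, X i`. -/
def IsSquarefreeMonomialIdeal {K σ : Type*} [Field K] (I : Ideal (MvPolynomial σ K)) : Prop :=
  I ≠ ⊤ ∧ ∃ S : Set (Finset σ), I = Ideal.span ((fun s : Finset σ => ∏ i ∈ s, X i) '' S)

/-- The ideal `(I : f)`. -/
def colonIdeal {R : Type*} [CommRing R] (I : Ideal R) (f : R) : Ideal R where
  carrier := {g | g * f ∈ I}
  add_mem' := by
    intro a b ha hb
    simp only [Set.mem_ofPred_eq] at *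
    rw [add_mul]
    exact I.add_mem ha hb
  zero_mem' := by simp
  smul_mem' := by
    intro c x hx
    simp only [Set.mem_ofPred_eq, smul_eq_mul] at *
    rw [mul_assoc]
    exact I.mul_mem_left c hx

/-- The v-number: the infimum of the degrees `d` of homogeneous `f` such that `(I : f)` is an
associated prime of `R / I`. -/
noncomputable def vNumber {K σ : Type*} [Field K] (I : Ideal (MvPolynomial σ K)) : ℕ∞ :=
  ⨅ (d : ℕ) (_ : ∃ f : MvPolynomial σ K, f.IsHomogeneous d ∧
    colonIdeal I f ∈ associatedPrimes (MvPolynomial σ K) (MvPolynomial σ K ⧸ I)), (d : ℕ∞)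

/-- The depth of `R / I` with respect to the homogeneous maximal ideal (the polynomials with
constant coefficient zero): the supremum of the lengths of the regular sequences on `R / I` whose
members are in the homogeneous maximal ideal. -/
noncomputable def depth {K σ : Type*} [Field K] (I : Ideal (MvPolynomial σ K)) : ℕ∞ :=
  ⨆ (rs : List (MvPolynomial σ K)) (_ : (∀ r ∈ rs, constantCoeff r = 0) ∧
    RingTheory.Sequence.IsRegular (MvPolynomial σ K ⧸ I) rs), (rs.length : ℕ∞)

section Construction

variable (K : Type*) [Field K] (n : ℕ)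

/-- The variables: two copies of `n + 1` variables. -/
abbrev Var (n : ℕ) := Bool × Fin (n + 1)

/-- The variables of the facet given by `b`, `i`: the vertices `(b, k)`, `k ≠ i`. -/
def facet {n : ℕ} (p : Var n) : Finset (Var n) :=
  Finset.univ.filter fun v => v.1 = p.1 ∧ v.2 ≠ p.2

/-- The homomorphism which sends the variables outside the set `s` to zero. -/
noncomputable def ev {n : ℕ} (s : Finset (Var n)) :
    MvPolynomial (Var n) K →ₐ[K] MvPolynomial (Var n) K :=
  aeval fun v => if v ∈ s then X v else 0

/-- The generators. -/
def gens (n : ℕ) : Set (Finset (Var n)) :=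
  {s | (∃ i j : Fin (n + 1), s = {(false, i), (true, j)}) ∨
    ∃ b : Bool, s = Finset.univ.filter fun v : Var n => v.1 = b}

/-- The ideal. -/
noncomputable def ideal : Ideal (MvPolynomial (Var n) K) :=
  Ideal.span ((fun s : Finset (Var n) => ∏ i ∈ s, X i) '' gens n)

variable {K n}

lemma prod_X_eq (s : Finset (Var n)) :
    (∏ i ∈ s, X i : MvPolynomial (Var n) K) = monomial (∑ i ∈ s, Finsupp.single i 1) 1 := by
  rw [monomial_sum_one]
  rfl

lemma coeff_ev (s : Finset (Var n)) (f : MvPolynomial (Var n) K) (m : Var n →₀ ℕ)
    (hm : m.support ⊆ s) : coeff m (ev K s f) = coeff m f := by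
  classical
  induction f using MvPolynomial.induction_on' with
  | add p q hp hq => rw [map_add, coeff_add, coeff_add, hp, hq]
  | monomial u a =>
    rw [ev, aeval_monomial, coeff_monomial]
    by_cases hu : u.support ⊆ s
    · have : (u.prod fun i k => (if i ∈ s then X i else 0 : MvPolynomial (Var n) K) ^ k) =
          u.prod fun i k => (X i : MvPolynomial (Var n) K) ^ k := by
        apply Finsupp.prod_congr
        intro i hi
        rw [if_pos (hu hi)]
      rw [this]
      have h2 : (algebraMap K (MvPolynomial (Var n) K) a) *
          (u.prod fun i k => (X i : MvPolynomial (Var n) K) ^ k) = monomial u a := by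
        rw [monomial_eq]
        rfl
      rw [h2, coeff_monomial]
    · obtain ⟨i, hi, his⟩ := Finset.not_subset.mp hu
      have h0 : (u.prod fun i k => (if i ∈ s then X i else 0 : MvPolynomial (Var n) K) ^ k) = 0 := by
        rw [Finsupp.prod]
        apply Finset.prod_eq_zero hi
        rw [if_neg his, zero_pow (Finsupp.mem_support_iff.mp hi)]
      rw [h0, mul_zero, coeff_zero, if_neg]
      rintro rfl
      exact hu hm

lemma coeff_ev_zero (s : Finset (Var n)) (f : MvPolynomial (Var n) K) (m : Var n →₀ ℕ)
    (hm : ¬ m.support ⊆ s) : coeff m (ev K s f) = 0 := by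
  classical
  induction f using MvPolynomial.induction_on' with
  | add p q hp hq => rw [map_add, coeff_add, hp, hq, add_zero]
  | monomial u a =>
    rw [ev, aeval_monomial]
    by_cases hu : u.support ⊆ s
    · have : (u.prod fun i k => (if i ∈ s then X i else 0 : MvPolynomial (Var n) K) ^ k) =
          u.prod fun i k => (X i : MvPolynomial (Var n) K) ^ k := by
        apply Finsupp.prod_congr
        intro i hi
        rw [if_pos (hu hi)]
      rw [this]
      have h2 : (algebraMap K (MvPolynomial (Var n) K) a) *
          (u.prod fun i k => (X i : MvPolynomial (Var n) K) ^ k) = monomial u a := by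
        rw [monomial_eq]
        rfl
      rw [h2, coeff_monomial, if_neg]
      rintro rfl
      exact hm hu
    · obtain ⟨i, hi, his⟩ := Finset.not_subset.mp hu
      have h0 : (u.prod fun i k => (if i ∈ s then X i else 0 : MvPolynomial (Var n) K) ^ k) = 0 := by
        rw [Finsupp.prod]
        apply Finset.prod_eq_zero hi
        rw [if_neg his, zero_pow (Finsupp.mem_support_iff.mp hi)]
      rw [h0, mul_zero, coeff_zero]

lemma ev_prod_eq_zero {s t : Finset (Var n)} (h : ¬ t ⊆ s) :
    ev K s (∏ i ∈ t, X i) = 0 := by
  obtain ⟨i, hi, his⟩ := Finset.not_subset.mp h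
  rw [map_prod]
  apply Finset.prod_eq_zero hi
  rw [ev, aeval_X, if_neg his]

lemma ev_prod_eq {s t : Finset (Var n)} (h : t ⊆ s) :
    ev K s (∏ i ∈ t, X i) = ∏ i ∈ t, X i := by
  rw [map_prod]
  apply Finset.prod_congr rfl
  intro i hi
  rw [ev, aeval_X, if_pos (h hi)]

lemma prod_X_ne_zero (t : Finset (Var n)) : (∏ i ∈ t, X i : MvPolynomial (Var n) K) ≠ 0 :=
  Finset.prod_ne_zero_iff.mpr fun _ _ => X_ne_zero _

/-- Membership in the ideal. -/
lemma mem_ideal_iff (f : MvPolynomial (Var n) K) :
    f ∈ ideal K n ↔ ∀ p : Var n, ev K (facet p) f = 0 := by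
  classical
  constructor
  · intro hf p
    have : ideal K n ≤ RingHom.ker (ev K (facet p)) := by
      rw [ideal, Ideal.span_le]
      rintro _ ⟨s, hs, rfl⟩
      simp only [SetLike.mem_coe, RingHom.mem_ker]
      apply ev_prod_eq_zero
      intro hsub
      rcases hs with ⟨i, j, rfl⟩ | ⟨b, rfl⟩
      · have h1 := hsub (show (false, i) ∈ ({(false, i), (true, j)} : Finset (Var n)) by simp)
        have h2 := hsub (show (true, j) ∈ ({(false, i), (true, j)} : Finset (Var n)) by simp)
        simp only [facet, Finset.mem_filter, Finset.mem_univ, true_and] at h1 h2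
        rw [← h1.1] at h2
        exact absurd h2.1 (by simp)
      · have h1 := hsub (show (b, p.2) ∈ Finset.univ.filter fun v : Var n => v.1 = b by simp)
        simp [facet] at h1
    exact this hf
  · intro hf
    have hgen : ideal K n = Ideal.span ((fun s => monomial s (1 : K)) ''
        ((fun s : Finset (Var n) => ∑ i ∈ s, Finsupp.single i 1) '' gens n)) := by
      rw [ideal, Set.image_image]
      congr 1
      apply Set.image_congr
      intro s _
      exact prod_X_eq s
    rw [hgen, mem_ideal_span_monomial_image]
    intro m hm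
    have hface : ∀ p : Var n, ¬ m.support ⊆ facet p := by
      intro p hp
      have := coeff_ev (K := K) (facet p) f m hp
      rw [hf p, coeff_zero] at this
      exact (mem_support_iff.mp hm) this.symm
    have hle : ∀ s : Finset (Var n), s ⊆ m.support → (∑ i ∈ s, Finsupp.single i 1) ≤ m := by
      intro s hs v
      rw [Finsupp.finsetSum_apply]
      by_cases hv : v ∈ s
      · rw [Finset.sum_eq_single_of_mem v hv]
        · rw [Finsupp.single_eq_same]
          exact Nat.one_le_iff_ne_zero.mpr (Finsupp.mem_support_iff.mp (hs hv))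
        · intro b _ hb
          rw [Finsupp.single_eq_of_ne]
          exact fun h => hb h.symm
      · rw [Finset.sum_eq_zero]
        · exact Nat.zero_le _
        · intro b hb
          rw [Finsupp.single_eq_of_ne]
          rintro rfl
          exact hv hb
    by_cases hmix : ∃ i j, m (false, i) ≠ 0 ∧ m (true, j) ≠ 0
    · obtain ⟨i, j, hi, hj⟩ := hmix
      refine ⟨_, ⟨{(false, i), (true, j)}, Or.inl ⟨i, j, rfl⟩, rfl⟩, hle _ ?_⟩
      intro v hv
      simp only [Finset.mem_insert, Finset.mem_singleton] at hv
      rcases hv with rfl | rfl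
      · exact Finsupp.mem_support_iff.mpr hi
      · exact Finsupp.mem_support_iff.mpr hj
    · have hb : ∃ b : Bool, ∀ v ∈ m.support, v.1 = b := by
        by_cases h1 : ∃ i, m (false, i) ≠ 0
        · obtain ⟨i, hi⟩ := h1
          refine ⟨false, ?_⟩
          rintro ⟨b, j⟩ hv
          cases b
          · rfl
          · exact absurd ⟨i, j, hi, Finsupp.mem_support_iff.mp hv⟩ hmix
        · refine ⟨true, ?_⟩
          rintro ⟨b, j⟩ hv
          cases b
          · exact absurd ⟨j, Finsupp.mem_support_iff.mp hv⟩ h1
          · rfl
      obtain ⟨b, hb⟩ := hb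
      refine ⟨_, ⟨Finset.univ.filter fun v : Var n => v.1 = b, Or.inr ⟨b, rfl⟩, rfl⟩, hle _ ?_⟩
      rintro ⟨b', j⟩ hv
      simp only [Finset.mem_filter, Finset.mem_univ, true_and] at hv
      subst hv
      by_contra hcon
      apply hface (b', j)
      rintro v hv
      simp only [facet, Finset.mem_filter, Finset.mem_univ, true_and]
      refine ⟨hb v hv, ?_⟩
      intro h
      apply hcon
      have : v = (b', j) := Prod.ext (hb v hv) h
      rw [← this]
      exact hv

lemma constantCoeff_ev (s : Finset (Var n)) (f : MvPolynomial (Var n) K) :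
    constantCoeff (ev K s f) = constantCoeff f := by
  rw [constantCoeff_eq]
  exact coeff_ev s f 0 (by simp)

lemma exists_ne (hn : 1 ≤ n) (i : Fin (n + 1)) : ∃ j : Fin (n + 1), j ≠ i := by
  have : Nontrivial (Fin (n + 1)) := Fin.nontrivial_iff_two_le.mpr (by omega)
  exact _root_.exists_ne i

lemma X_notMem (hn : 1 ≤ n) (v : Var n) : (X v : MvPolynomial (Var n) K) ∉ ideal K n := by
  rw [mem_ideal_iff]
  intro h
  obtain ⟨j, hj⟩ := exists_ne hn v.2
  have := h (v.1, j)
  rw [ev, aeval_X, if_pos] at this
  · exact X_ne_zero _ this
  · simp [facet, hj.symm]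

/-- The homomorphism which keeps only the variables of one of the two copies. -/
noncomputable def side (K : Type*) [Field K] {n : ℕ} (b : Bool) :
    MvPolynomial (Var n) K →ₐ[K] MvPolynomial (Var n) K :=
  ev K (Finset.univ.filter fun v : Var n => v.1 = b)

lemma ev_side_same (b : Bool) (i : Fin (n + 1)) (f : MvPolynomial (Var n) K) :
    ev K (facet (b, i)) (side K b f) = ev K (facet (b, i)) f := by
  rw [side, ev, ev]
  have : (aeval fun v => if v ∈ facet (b, i) then (X v : MvPolynomial (Var n) K) else 0).comp
      (aeval fun v => if v ∈ (Finset.univ.filter fun v : Var n => v.1 = b) then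
        (X v : MvPolynomial (Var n) K) else 0) =
      (aeval fun v => if v ∈ facet (b, i) then (X v : MvPolynomial (Var n) K) else 0) := by
    apply MvPolynomial.algHom_ext
    intro v
    rw [AlgHom.comp_apply, aeval_X, aeval_X]
    by_cases h : v.1 = b
    · rw [if_pos (by simp [h]), aeval_X]
    · rw [if_neg (by simp [h]), map_zero, if_neg (by simp [facet, h])]
  exact DFunLike.congr_fun this f

lemma ev_side_other {b b' : Bool} (hb : b' ≠ b) (i : Fin (n + 1)) (f : MvPolynomial (Var n) K)
    (hf : constantCoeff f = 0) : ev K (facet (b', i)) (side K b f) = 0 := by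
  rw [side, ev, ev]
  have : (aeval fun v => if v ∈ facet (b', i) then (X v : MvPolynomial (Var n) K) else 0).comp
      (aeval fun v => if v ∈ (Finset.univ.filter fun v : Var n => v.1 = b) then
        (X v : MvPolynomial (Var n) K) else 0) =
      (aeval fun _ => (0 : MvPolynomial (Var n) K)) := by
    apply MvPolynomial.algHom_ext
    intro v
    rw [AlgHom.comp_apply, aeval_X, aeval_X]
    by_cases h : v.1 = b
    · rw [if_pos (by simp [h]), aeval_X, if_neg]
      simp only [facet, Finset.mem_filter, Finset.mem_univ, true_and, not_and, not_not]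
      intro h2
      exact absurd (h2.symm.trans h) hb
    · rw [if_neg (by simp [h]), map_zero]
  have h2 := DFunLike.congr_fun this f
  rw [AlgHom.comp_apply] at h2
  rw [h2, aeval_zero', hf, map_zero]

lemma mk_smul (f g : MvPolynomial (Var n) K) :
    f • (Ideal.Quotient.mk (ideal K n) g) = Ideal.Quotient.mk (ideal K n) (f * g) := rfl

/-- The depth is at most one. -/
lemma depth_le (hn : 1 ≤ n) : depth (ideal K n) ≤ 1 := by
  rw [depth]
  refine iSup_le fun rs => iSup_le fun ⟨hrs, hreg⟩ => ?_
  match rs, hrs, hreg with
  | [], _, _ => simp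
  | [a], _, _ => simp
  | a :: b :: rs, hrs, hreg =>
    exfalso
    have ha : constantCoeff a = 0 := hrs a (by simp)
    have hb : constantCoeff b = 0 := hrs b (by simp)
    have hw := hreg.toIsWeaklyRegular
    rw [RingTheory.Sequence.isWeaklyRegular_cons_iff,
      RingTheory.Sequence.isWeaklyRegular_cons_iff] at hw
    obtain ⟨h1, h2, -⟩ := hw
    -- `a` is a nonzerodivisor
    have h1' : ∀ g, a * g ∈ ideal K n → g ∈ ideal K n := by
      intro g hg
      have : a • (Ideal.Quotient.mk (ideal K n) g) = a • (0 : MvPolynomial (Var n) K ⧸ ideal K n) := by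
        rw [mk_smul, smul_zero]
        exact Ideal.Quotient.eq_zero_iff_mem.mpr hg
      exact Ideal.Quotient.eq_zero_iff_mem.mp (h1 this)
    have hkey : b * side K false a - a * side K false b ∈ ideal K n := by
      rw [mem_ideal_iff]
      rintro ⟨c, i⟩
      rw [map_sub, map_mul, map_mul]
      cases c
      · rw [ev_side_same, ev_side_same]
        ring
      · rw [ev_side_other (by simp) _ _ ha, ev_side_other (by simp) _ _ hb]
        ring
    -- so `side a` is a multiple of `a`
    have h3 : ∃ c, side K false a - a * c ∈ ideal K n := by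
      have hmem : (Submodule.Quotient.mk (Ideal.Quotient.mk (ideal K n) (side K false a)) :
          QuotSMulTop a (MvPolynomial (Var n) K ⧸ ideal K n)) = 0 := by
        apply h2
        change b • _ = b • _
        rw [smul_zero, ← Submodule.Quotient.mk_smul, Submodule.Quotient.mk_eq_zero, mk_smul]
        rw [Submodule.mem_smul_pointwise_iff_exists]
        refine ⟨Ideal.Quotient.mk (ideal K n) (side K false b), trivial, ?_⟩
        rw [mk_smul, eq_comm]
        exact Ideal.Quotient.eq.mpr hkey
      rw [Submodule.Quotient.mk_eq_zero, Submodule.mem_smul_pointwise_iff_exists] at hmem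
      obtain ⟨c', -, hc'⟩ := hmem
      obtain ⟨c, rfl⟩ := Ideal.Quotient.mk_surjective c'
      refine ⟨c, ?_⟩
      rw [mk_smul, eq_comm] at hc'
      exact Ideal.Quotient.eq.mp hc'
    obtain ⟨c, hc⟩ := h3
    rw [mem_ideal_iff] at hc
    by_cases hc1 : constantCoeff c = 1
    · -- `a` is killed by the variables of the second copy
      have hz : ∀ i, ev K (facet (true, i)) a = 0 := by
        intro i
        have := hc (true, i)
        rw [map_sub, map_mul, ev_side_other (by simp) _ _ ha, zero_sub, neg_eq_zero,
          mul_eq_zero] at this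
        rcases this with h | h
        · exact h
        · have h4 := constantCoeff_ev (facet (true, i)) c
          rw [h, map_zero, hc1] at h4
          exact absurd h4 (by simp)
      apply X_notMem (K := K) hn (true, 0)
      apply h1'
      rw [mem_ideal_iff]
      rintro ⟨b', i⟩
      rw [map_mul]
      cases b'
      · rw [show ev K (facet (false, i)) (X (true, 0)) = 0 by
          rw [ev, aeval_X, if_neg (by simp [facet])], mul_zero]
      · rw [hz, zero_mul]
    · have hz : ∀ i, ev K (facet (false, i)) a = 0 := by
        intro i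
        have := hc (false, i)
        rw [map_sub, map_mul, ev_side_same] at this
        have h5 : ev K (facet (false, i)) a * (1 - ev K (facet (false, i)) c) = 0 := by
          rw [mul_sub, mul_one]
          exact this
        rcases mul_eq_zero.mp h5 with h | h
        · exact h
        · exfalso
          apply hc1
          have h4 := constantCoeff_ev (facet (false, i)) c
          rw [← sub_eq_zero.mp h, map_one] at h4
          exact h4.symm
      apply X_notMem (K := K) hn (false, 0)
      apply h1'
      rw [mem_ideal_iff]
      rintro ⟨b', i⟩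
      rw [map_mul]
      cases b'
      · rw [hz, zero_mul]
      · rw [show ev K (facet (true, i)) (X (false, 0)) = 0 by
          rw [ev, aeval_X, if_neg (by simp [facet])], mul_zero]

lemma mem_colonIdeal {R : Type*} [CommRing R] {I : Ideal R} {f g : R} :
    g ∈ colonIdeal I f ↔ g * f ∈ I := Iff.rfl

lemma card_facet (p : Var n) : (facet p).card = n := by
  classical
  have : facet p = (Finset.univ.erase p.2).map ⟨fun i => (p.1, i), fun i j h => by simpa using h⟩ := by
    ext ⟨b, i⟩
    simp only [facet, Finset.mem_filter, Finset.mem_univ, true_and, Finset.mem_map,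
      Finset.mem_erase, and_true]
    constructor
    · rintro ⟨rfl, h⟩
      exact ⟨i, h, rfl⟩
    · rintro ⟨j, hj, h⟩
      have h1 : p.1 = b := congrArg Prod.fst h
      have h2 : j = i := congrArg Prod.snd h
      exact ⟨h1.symm, h2 ▸ hj⟩
  rw [this, Finset.card_map, Finset.card_erase_of_mem (Finset.mem_univ _), Finset.card_univ,
    Fintype.card_fin]
  rfl

lemma not_facet_subset {p q : Var n} (hn : 1 ≤ n) (h : p ≠ q) : ¬ facet p ⊆ facet q := by
  intro hsub
  obtain ⟨j, hj⟩ := exists_ne hn p.2
  have h1 := hsub (show (p.1, j) ∈ facet p by simp [facet, hj])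
  simp only [facet, Finset.mem_filter, Finset.mem_univ, true_and] at h1
  have h2 : p.2 ≠ q.2 := fun h3 => h (Prod.ext h1.1 h3)
  have h4 := hsub (show (p.1, q.2) ∈ facet p by simp [facet, h2.symm])
  simp [facet] at h4

/-- The v-number is at least `n`. -/
lemma le_vNumber (hn : 1 ≤ n) : (n : ℕ∞) ≤ vNumber (ideal K n) := by
  classical
  rw [vNumber]
  refine le_iInf fun d => le_iInf fun ⟨f, hf, hass⟩ => ?_
  by_contra hlt
  have hdn : d < n := by
    have := not_le.mp hlt
    exact_mod_cast this
  have hprime : (colonIdeal (ideal K n) f).IsPrime := hass.1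
  -- `f` is not in the ideal
  have hfI : f ∉ ideal K n := by
    intro h
    apply hprime.ne_top
    rw [Ideal.eq_top_iff_one, mem_colonIdeal, one_mul]
    exact h
  rw [mem_ideal_iff] at hfI
  push Not at hfI
  obtain ⟨⟨b, i⟩, hbi⟩ := hfI
  obtain ⟨m, hm⟩ := MvPolynomial.ne_zero_iff.mp hbi
  -- the monomial has only variables of the facet
  have hms : m.support ⊆ facet (b, i) := by
    by_contra hcon
    exact hm (coeff_ev_zero _ f m hcon)
  have hmf : coeff m f ≠ 0 := by
    rw [← coeff_ev (facet (b, i)) f m hms]
    exact hm
  have hmd : m.support.card ≤ d := by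
    have h7 := hf hmf
    have h8 : m.degree = d := by
      rw [← h7, Finsupp.degree_eq_weight_one]
      rfl
    rw [← h8, Finsupp.degree_apply, Finset.card_eq_sum_ones]
    apply Finset.sum_le_sum
    intro v hv
    exact Nat.one_le_iff_ne_zero.mpr (Finsupp.mem_support_iff.mp hv)
  -- there is another facet which contains the support
  have hex : ∃ j, j ≠ i ∧ (b, j) ∉ m.support := by
    by_contra hcon
    push Not at hcon
    have hsub : facet (b, i) ⊆ m.support := by
      rintro ⟨b', j⟩ hj
      simp only [facet, Finset.mem_filter, Finset.mem_univ, true_and] at hj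
      obtain ⟨rfl, hj2⟩ := hj
      exact hcon j hj2
    have := Finset.card_le_card hsub
    rw [card_facet] at this
    omega
  obtain ⟨j, hji, hjm⟩ := hex
  have hmsj : m.support ⊆ facet (b, j) := by
    intro v hv
    have h9 := hms hv
    simp only [facet, Finset.mem_filter, Finset.mem_univ, true_and] at h9 ⊢
    refine ⟨h9.1, ?_⟩
    intro h10
    apply hjm
    rw [← h10, ← h9.1]
    exact hv
  have hevj : ev K (facet (b, j)) f ≠ 0 := by
    intro h
    apply hmf
    rw [← coeff_ev (facet (b, j)) f m hmsj, h, coeff_zero]
  -- two elements outside the colon ideal whose product is in the ideal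
  have hu : (∏ v ∈ facet (b, i), X v : MvPolynomial (Var n) K) ∉ colonIdeal (ideal K n) f := by
    rw [mem_colonIdeal, mem_ideal_iff]
    intro h
    have := h (b, i)
    rw [map_mul, ev_prod_eq (Finset.Subset.refl _), mul_eq_zero] at this
    rcases this with h | h
    · exact prod_X_ne_zero _ h
    · exact hbi h
  have hw : (∏ v ∈ facet (b, j), X v : MvPolynomial (Var n) K) ∉ colonIdeal (ideal K n) f := by
    rw [mem_colonIdeal, mem_ideal_iff]
    intro h
    have := h (b, j)
    rw [map_mul, ev_prod_eq (Finset.Subset.refl _), mul_eq_zero] at this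
    rcases this with h | h
    · exact prod_X_ne_zero _ h
    · exact hevj h
  have huw : (∏ v ∈ facet (b, i), X v : MvPolynomial (Var n) K) * (∏ v ∈ facet (b, j), X v) ∈
      colonIdeal (ideal K n) f := by
    rw [mem_colonIdeal]
    apply Ideal.mul_mem_right
    rw [mem_ideal_iff]
    intro p
    rw [map_mul]
    by_cases hp : (b, i) = p
    · rw [ev_prod_eq_zero (not_facet_subset hn (p := (b, j)) (q := p) ?_), mul_zero]
      rw [← hp]
      intro h
      simp only [Prod.mk.injEq, true_and] at h
      exact hji h
    · rw [ev_prod_eq_zero (not_facet_subset hn (p := (b, i)) (q := p) hp), zero_mul]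
  rcases hprime.mem_or_mem huw with h | h
  · exact hu h
  · exact hw h

/-- The v-number is at most `n`. -/
lemma vNumber_le (hn : 1 ≤ n) : vNumber (ideal K n) ≤ n := by
  rw [vNumber]
  refine iInf_le_of_le n (iInf_le_of_le ⟨∏ v ∈ facet (false, 0), X v, ?_, ?_⟩ le_rfl)
  · have := IsHomogeneous.prod (facet ((false, 0) : Var n)) (fun v => (X v : MvPolynomial (Var n) K))
      (fun _ => 1) (fun v _ => isHomogeneous_X K v)
    rw [Finset.sum_const, card_facet, smul_eq_mul, mul_one] at this
    exact this
  · have hker : colonIdeal (ideal K n) (∏ v ∈ facet (false, 0), X v) =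
        RingHom.ker (ev K (facet ((false, 0) : Var n))) := by
      ext g
      rw [mem_colonIdeal, mem_ideal_iff, RingHom.mem_ker]
      constructor
      · intro h
        have := h (false, 0)
        rw [map_mul, ev_prod_eq (Finset.Subset.refl _), mul_eq_zero] at this
        rcases this with h | h
        · exact h
        · exact absurd h (prod_X_ne_zero _)
      · intro h p
        rw [map_mul]
        by_cases hp : (false, 0) = p
        · rw [← hp, h, zero_mul]
        · rw [ev_prod_eq_zero (not_facet_subset hn hp), mul_zero]
    have hpr : (colonIdeal (ideal K n) (∏ v ∈ facet (false, 0), X v)).IsPrime := by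
      rw [hker]
      exact RingHom.ker_isPrime _
    refine ⟨hpr, Ideal.Quotient.mk (ideal K n) (∏ v ∈ facet (false, 0), X v), ?_⟩
    have : (Submodule.colon (⊥ : Submodule (MvPolynomial (Var n) K)
        (MvPolynomial (Var n) K ⧸ ideal K n))
        {Ideal.Quotient.mk (ideal K n) (∏ v ∈ facet (false, 0), X v)}) =
        colonIdeal (ideal K n) (∏ v ∈ facet (false, 0), X v) := by
      ext g
      rw [Submodule.mem_colon_singleton, Submodule.mem_bot, mk_smul, mem_colonIdeal]
      exact Ideal.Quotient.eq_zero_iff_mem
    rw [this]
    exact hpr.radical.symm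

lemma ideal_ne_top : ideal K n ≠ ⊤ := by
  intro h
  have : (1 : MvPolynomial (Var n) K) ∈ ideal K n := by rw [h]; trivial
  rw [mem_ideal_iff] at this
  have := this (false, 0)
  rw [map_one] at this
  exact one_ne_zero this

end Construction

/-- Over every field and for every `n ≥ 1` there is a squarefree monomial ideal `I` (in a polynomial
ring in `2 n + 2` variables) with v-number `n` and such that the depth of `R / I` is at most one.
In particular (`n ≥ 2`) the v-number can be greater than the depth, and the difference can be
arbitrarily large. -/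
theorem result (K : Type*) [Field K] (n : ℕ) (hn : 1 ≤ n) :
    ∃ I : Ideal (MvPolynomial (Bool × Fin (n + 1)) K), IsSquarefreeMonomialIdeal I ∧
      vNumber I = n ∧ depth I ≤ 1 :=
  ⟨ideal K n, ⟨ideal_ne_top, gens n, rfl⟩, le_antisymm (vNumber_le hn) (le_vNumber hn),
    depth_le hn⟩

end Pool.Agent.Results.MP_d06a13_ag.DepthCounterexample
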